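import Mathlib
import Pool.Agent.Helper466.Starter.Defs
import Pool.Agent.Y346.ST.Split
import Pool.Agent.Y346.ST.Cyc4

set_option autoImplicit false

/-!
Starters in finite groups with a normal 2-complement. The definitions (`IsInvol`, `Fixes`,
`IsShort`, `bdry`, `verts`, `IsLeftTransversal`, `HasStarter`) are in
`Pool.Agent.Helper466.Starter.Defs`.
-/

namespace Pool.Agent.Results.MP_da365b_co.NormalTwoComplement

open Pool.Agent.Helper466.Starter Pool.Agent.Y346.ST

universe u

theorem main {G : Type u} [Group G] [Finite G] (heven : Even (Nat.card G)) (N : Subgroup G)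
    [N.Normal] (hodd : Odd (Nat.card N)) (n : ℕ) (hidx : N.index = 2 ^ n)
    (h : ¬ HasStarter G) : IsCyclic G ∧ ∃ m, Nat.card G = 2 ^ m := by
  have h2 : IsPGroup 2 (G ⧸ N) := IsPGroup.of_card (n := n) hidx
  obtain ⟨s, hs⟩ := exists_split N hodd h2
  have hker : (QuotientGroup.mk' N).ker = N := QuotientGroup.ker_mk' N
  have hodd' : Odd (Nat.card (QuotientGroup.mk' N).ker) := by rw [hker]; exact hodd
  have hcyc : IsCyclic (G ⧸ N) := by
    by_contra hnc
    exact h (hasStarter_noncyclic (QuotientGroup.mk' N) s hs hodd' h2 hnc)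
  have hnt : Nontrivial (G ⧸ N) := by
    by_contra hcon
    rw [not_nontrivial_iff_subsingleton] at hcon
    have h1 : N.index = 1 := by
      rw [Subgroup.index, Nat.card_eq_one_iff_unique]
      exact ⟨hcon, ⟨1⟩⟩
    have h3 := N.card_mul_index
    rw [h1, mul_one] at h3
    rw [h3] at hodd
    exact (Nat.not_even_iff_odd.2 hodd) heven
  have hN : N = ⊥ := by
    by_contra hN
    exact h (hasStarter_cyclic (QuotientGroup.mk' N) s hs hodd' h2 hnt hcyc (by rw [hker]; exact hN))
  subst hN
  have e : G ⧸ (⊥ : Subgroup G) ≃* G := QuotientGroup.quotientBot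
  refine ⟨isCyclic_of_surjective e e.surjective, n, ?_⟩
  rw [← hidx, Subgroup.index_bot]

/-- **Starters in finite groups with a normal 2-complement.**
1. (Q2 of the problem) A finite group of 2-power order that admits no starter is cyclic.
2. A finite group of even order that has a normal subgroup of odd order and 2-power index and
   admits no starter is cyclic of 2-power order.
3. A finite nilpotent group of even order that admits no starter is cyclic of 2-power order.
4. A finite group of even order whose Sylow 2-subgroups are cyclic and that admits no starter is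
   cyclic of 2-power order. -/
theorem result :
    (∀ (G : Type u) [Group G] [Finite G] (n : ℕ), Nat.card G = 2 ^ n → ¬ HasStarter G →
      IsCyclic G) ∧
    (∀ (G : Type u) [Group G] [Finite G], Even (Nat.card G) →
      (∃ N : Subgroup G, N.Normal ∧ Odd (Nat.card N) ∧ ∃ n : ℕ, N.index = 2 ^ n) →
      ¬ HasStarter G → IsCyclic G ∧ ∃ m : ℕ, Nat.card G = 2 ^ m) ∧
    (∀ (G : Type u) [Group G] [Finite G], Even (Nat.card G) → Group.IsNilpotent G →
      ¬ HasStarter G → IsCyclic G ∧ ∃ m : ℕ, Nat.card G = 2 ^ m) ∧
    (∀ (G : Type u) [Group G] [Finite G], Even (Nat.card G) →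
      (∀ P : Sylow 2 G, IsCyclic P) →
      ¬ HasStarter G → IsCyclic G ∧ ∃ m : ℕ, Nat.card G = 2 ^ m) := by
  have hmain : ∀ (G : Type u) [Group G] [Finite G], Even (Nat.card G) →
      (∃ N : Subgroup G, N.Normal ∧ Odd (Nat.card N) ∧ ∃ n : ℕ, N.index = 2 ^ n) →
      ¬ HasStarter G → IsCyclic G ∧ ∃ m : ℕ, Nat.card G = 2 ^ m := by
    intro G _ _ heven ⟨N, hN, hodd, n, hidx⟩ h
    exact main heven N hodd n hidx h
  have hp : Fact (Nat.Prime 2) := ⟨Nat.prime_two⟩
  refine ⟨?_, hmain, ?_, ?_⟩
  · intro G _ _ n hn h
    rcases Nat.eq_zero_or_pos n with h0 | h0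
    · rw [h0, pow_zero] at hn
      have : Subsingleton G := (Nat.card_eq_one_iff_unique.1 hn).1
      exact isCyclic_of_subsingleton
    · refine (main (N := (⊥ : Subgroup G)) ?_ ?_ n ?_ h).1
      · rw [hn]
        exact even_two.pow_of_ne_zero (by omega)
      · rw [Subgroup.card_bot]
        exact odd_one
      · rw [Subgroup.index_bot, hn]
  · intro G _ _ heven hnil h
    have hnorm : ∀ {p : ℕ} [Fact p.Prime] (P : Sylow p G), P.Normal := by
      intro p hpp P
      exact Sylow.normal_of_normalizerCondition Group.normalizerCondition_of_isNilpotent P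
    have h2mem : 2 ∈ (Nat.card G).primeFactors := by
      rw [Nat.mem_primeFactors]
      exact ⟨Nat.prime_two, heven.two_dvd, Nat.card_pos.ne'⟩
    let e := Sylow.directProductOfNormal (G := G) hnorm
    obtain ⟨P⟩ : Nonempty (Sylow 2 G) := inferInstance
    let π : G →* P := (Pi.evalMonoidHom (fun Q : Sylow 2 G => (Q : Type _)) P).comp
      ((Pi.evalMonoidHom (fun p : (Nat.card G).primeFactors => ∀ Q : Sylow p G, Q)
        ⟨2, h2mem⟩).comp e.symm.toMonoidHom)
    have hπ : Function.Surjective π := by
      intro y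
      classical
      let f : ∀ Q : Sylow 2 G, Q := Pi.mulSingle P y
      let F : ∀ p : (Nat.card G).primeFactors, ∀ Q : Sylow p G, Q := Pi.mulSingle ⟨2, h2mem⟩ f
      refine ⟨e F, ?_⟩
      show (e.symm (e F)) ⟨2, h2mem⟩ P = y
      rw [MulEquiv.symm_apply_apply]
      simp [F, f]
    apply hmain G heven ?_ h
    have hidx : π.ker.index = Nat.card P := by
      rw [Subgroup.index_ker, MonoidHom.range_eq_top.2 hπ]
      exact Nat.card_congr Subgroup.topEquiv.toEquiv
    obtain ⟨k, hk⟩ := IsPGroup.iff_card.1 P.isPGroup'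
    refine ⟨π.ker, inferInstance, ?_, k, ?_⟩
    · have h1 := π.ker.card_mul_index
      have h3 := (P : Subgroup G).index_mul_card
      have h4 : Nat.card π.ker = (P : Subgroup G).index := by
        have h5 : 0 < Nat.card P := Nat.card_pos
        apply Nat.eq_of_mul_eq_mul_right h5
        rw [h3, ← h1, hidx]
      rw [h4, ← Nat.not_even_iff_odd, even_iff_two_dvd]
      exact P.not_dvd_index
    · rw [hidx]
      exact hk
  · intro G _ _ heven hP h
    obtain ⟨P⟩ : Nonempty (Sylow 2 G) := inferInstance
    have hmin : (Nat.card G).minFac = 2 := by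
      rw [Nat.minFac_eq_two_iff]
      exact heven.two_dvd
    have hc := IsCyclic.isComplement' hmin (hP P)
    apply hmain G heven ?_ h
    obtain ⟨k, hk⟩ := IsPGroup.iff_card.1 P.isPGroup'
    refine ⟨(MonoidHom.transferSylow P ((hP P).normalizer_le_centralizer hmin)).ker,
      inferInstance, ?_, k, ?_⟩
    rotate_left
    · rw [hc.symm.index_eq_card]
      exact hk
    · have h4 : Nat.card (MonoidHom.transferSylow P
          ((hP P).normalizer_le_centralizer hmin)).ker = (P : Subgroup G).index :=
        hc.index_eq_card.symm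
      rw [h4, ← Nat.not_even_iff_odd, even_iff_two_dvd]
      exact P.not_dvd_index

end Pool.Agent.Results.MP_da365b_co.NormalTwoComplement
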